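import Mathlib

/-!
Bounds for the largest binomial coefficient.
-/

namespace Pool.Agent.H52.ThreeStar

open Nat

theorem central_upper (k : ℕ) : (centralBinom k) ^ 2 * (3 * k + 1) ≤ 16 ^ k := by
  induction k with
  | zero => simp
  | succ k ih =>
    have h1 := Nat.succ_mul_centralBinom_succ k
    have h2 : (k + 1) ^ 2 * ((centralBinom (k + 1)) ^ 2 * (3 * (k + 1) + 1)) =
        4 * (2 * k + 1) ^ 2 * (3 * k + 4) * (centralBinom k) ^ 2 := by
      calc (k + 1) ^ 2 * ((centralBinom (k + 1)) ^ 2 * (3 * (k + 1) + 1))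
          = ((k + 1) * centralBinom (k + 1)) ^ 2 * (3 * k + 4) := by ring
        _ = (2 * (2 * k + 1) * centralBinom k) ^ 2 * (3 * k + 4) := by rw [h1]
        _ = _ := by ring
    have h3 : (2 * k + 1) ^ 2 * (3 * k + 4) ≤ 4 * (k + 1) ^ 2 * (3 * k + 1) := by
      nlinarith
    have h4 : 4 * (2 * k + 1) ^ 2 * (3 * k + 4) * (centralBinom k) ^ 2 ≤
        (k + 1) ^ 2 * 16 ^ (k + 1) := by
      calc 4 * (2 * k + 1) ^ 2 * (3 * k + 4) * (centralBinom k) ^ 2
          = 4 * ((2 * k + 1) ^ 2 * (3 * k + 4)) * (centralBinom k) ^ 2 := by ring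
        _ ≤ 4 * (4 * (k + 1) ^ 2 * (3 * k + 1)) * (centralBinom k) ^ 2 := by gcongr
        _ = 16 * (k + 1) ^ 2 * ((centralBinom k) ^ 2 * (3 * k + 1)) := by ring
        _ ≤ 16 * (k + 1) ^ 2 * 16 ^ k := by gcongr
        _ = _ := by ring
    rw [← h2] at h4
    exact Nat.le_of_mul_le_mul_left h4 (by positivity)

theorem central_lower (k : ℕ) : 16 ^ k ≤ (centralBinom k) ^ 2 * (4 * k + 1) := by
  induction k with
  | zero => simp
  | succ k ih =>
    have h1 := Nat.succ_mul_centralBinom_succ k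
    have h2 : (k + 1) ^ 2 * ((centralBinom (k + 1)) ^ 2 * (4 * (k + 1) + 1)) =
        4 * (2 * k + 1) ^ 2 * (4 * k + 5) * (centralBinom k) ^ 2 := by
      calc (k + 1) ^ 2 * ((centralBinom (k + 1)) ^ 2 * (4 * (k + 1) + 1))
          = ((k + 1) * centralBinom (k + 1)) ^ 2 * (4 * k + 5) := by ring
        _ = (2 * (2 * k + 1) * centralBinom k) ^ 2 * (4 * k + 5) := by rw [h1]
        _ = _ := by ring
    have h3 : 4 * (k + 1) ^ 2 * (4 * k + 1) ≤ (2 * k + 1) ^ 2 * (4 * k + 5) := by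
      nlinarith
    have h4 : (k + 1) ^ 2 * 16 ^ (k + 1) ≤
        4 * (2 * k + 1) ^ 2 * (4 * k + 5) * (centralBinom k) ^ 2 := by
      calc (k + 1) ^ 2 * 16 ^ (k + 1) = 16 * (k + 1) ^ 2 * 16 ^ k := by ring
        _ ≤ 16 * (k + 1) ^ 2 * ((centralBinom k) ^ 2 * (4 * k + 1)) := by gcongr
        _ = 4 * (4 * (k + 1) ^ 2 * (4 * k + 1)) * (centralBinom k) ^ 2 := by ring
        _ ≤ 4 * ((2 * k + 1) ^ 2 * (4 * k + 5)) * (centralBinom k) ^ 2 := by gcongr
        _ = _ := by ring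
    rw [← h2] at h4
    exact Nat.le_of_mul_le_mul_left h4 (by positivity)

theorem two_mul_odd (k : ℕ) : 2 * (2 * k + 1).choose k = centralBinom (k + 1) := by
  have h1 : (2 * k + 2).choose (k + 1) = (2 * k + 1).choose k + (2 * k + 1).choose (k + 1) :=
    Nat.choose_succ_succ _ _
  have h2 : (2 * k + 1).choose (k + 1) = (2 * k + 1).choose k := Nat.choose_symm_half k
  rw [Nat.centralBinom_eq_two_mul_choose]
  have h3 : 2 * (k + 1) = 2 * k + 2 := by ring
  rw [h3, h1, h2]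
  ring

theorem half_upper (m : ℕ) : (m.choose (m / 2)) ^ 2 * (3 * m + 2) ≤ 2 * 4 ^ m := by
  rcases Nat.even_or_odd' m with ⟨k, rfl | rfl⟩
  · have h1 : 2 * k / 2 = k := by omega
    rw [h1]
    have h2 := central_upper k
    rw [Nat.centralBinom_eq_two_mul_choose] at h2
    have h3 : (4 : ℕ) ^ (2 * k) = 16 ^ k := by
      rw [pow_mul]
      norm_num
    rw [h3]
    nlinarith
  · have h1 : (2 * k + 1) / 2 = k := by omega
    rw [h1]
    have h2 := central_upper (k + 1)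
    rw [← two_mul_odd] at h2
    have h3 : (4 : ℕ) ^ (2 * k + 1) = 4 * 16 ^ k := by
      rw [pow_succ, pow_mul]
      norm_num
      ring
    rw [h3]
    have h4 : (16 : ℕ) ^ (k + 1) = 16 * 16 ^ k := by ring
    rw [h4] at h2
    have h5 : (2 * (2 * k + 1).choose k) ^ 2 * (3 * (k + 1) + 1) =
      4 * ((2 * k + 1).choose k) ^ 2 * (3 * k + 4) := by ring
    rw [h5] at h2
    have h6 : ((2 * k + 1).choose k) ^ 2 * (3 * (2 * k + 1) + 2) ≤
        ((2 * k + 1).choose k) ^ 2 * (2 * (3 * k + 4)) := by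
      gcongr
      omega
    nlinarith

theorem half_lower (m : ℕ) : 4 ^ m ≤ (m.choose (m / 2)) ^ 2 * (2 * m + 3) := by
  rcases Nat.even_or_odd' m with ⟨k, rfl | rfl⟩
  · have h1 : 2 * k / 2 = k := by omega
    rw [h1]
    have h2 := central_lower k
    rw [Nat.centralBinom_eq_two_mul_choose] at h2
    have h3 : (4 : ℕ) ^ (2 * k) = 16 ^ k := by
      rw [pow_mul]
      norm_num
    rw [h3]
    refine h2.trans (Nat.mul_le_mul_left _ ?_)
    omega
  · have h1 : (2 * k + 1) / 2 = k := by omega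
    rw [h1]
    have h2 := central_lower (k + 1)
    rw [← two_mul_odd] at h2
    have h3 : (4 : ℕ) ^ (2 * k + 1) = 4 * 16 ^ k := by
      rw [pow_succ, pow_mul]
      norm_num
      ring
    rw [h3]
    have h4 : (16 : ℕ) ^ (k + 1) = 16 * 16 ^ k := by ring
    rw [h4] at h2
    have h5 : (2 * (2 * k + 1).choose k) ^ 2 * (4 * (k + 1) + 1) =
      4 * (((2 * k + 1).choose k) ^ 2 * (2 * (2 * k + 1) + 3)) := by ring
    rw [h5] at h2
    omega

/-- the key numeric bound -/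
theorem num_bound (t g k s m : ℕ) (hs : s = (2 * t + g) / 2) (N : ℕ)
    (hm : m * (2 * t + g).choose s ≤ N * (t.choose k * (t + g).choose (s - k))) :
    9 * t * m ^ 2 ≤ 16 * N ^ 2 := by
  have h1 : t.choose k ≤ t.choose (t / 2) := Nat.choose_le_middle _ _
  have h2 : (t + g).choose (s - k) ≤ (t + g).choose ((t + g) / 2) := Nat.choose_le_middle _ _
  have h3 := half_upper t
  have h4 := half_upper (t + g)
  have h5 := half_lower (2 * t + g)
  rw [← hs] at h5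
  set A := t.choose (t / 2) with hA
  set B := (t + g).choose ((t + g) / 2) with hB
  set C := (2 * t + g).choose s with hC
  have hm' : m * C ≤ N * (A * B) := by
    refine hm.trans ?_
    gcongr
  have hm2 : m ^ 2 * C ^ 2 ≤ N ^ 2 * (A ^ 2 * B ^ 2) := by
    have := Nat.pow_le_pow_left hm' 2
    calc m ^ 2 * C ^ 2 = (m * C) ^ 2 := by ring
      _ ≤ (N * (A * B)) ^ 2 := this
      _ = _ := by ring
  have h6 : (A ^ 2 * B ^ 2) * ((3 * t + 2) * (3 * (t + g) + 2)) ≤ 4 * 4 ^ (2 * t + g) := by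
    calc (A ^ 2 * B ^ 2) * ((3 * t + 2) * (3 * (t + g) + 2))
        = (A ^ 2 * (3 * t + 2)) * (B ^ 2 * (3 * (t + g) + 2)) := by ring
      _ ≤ (2 * 4 ^ t) * (2 * 4 ^ (t + g)) := Nat.mul_le_mul h3 h4
      _ = 4 * 4 ^ (2 * t + g) := by
        rw [show 2 * t + g = t + (t + g) by ring, pow_add]
        ring
  have h7 : m ^ 2 * ((3 * t + 2) * (3 * (t + g) + 2)) * C ^ 2 ≤
      4 * N ^ 2 * (2 * (2 * t + g) + 3) * C ^ 2 := by
    calc m ^ 2 * ((3 * t + 2) * (3 * (t + g) + 2)) * C ^ 2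
        = (m ^ 2 * C ^ 2) * ((3 * t + 2) * (3 * (t + g) + 2)) := by ring
      _ ≤ (N ^ 2 * (A ^ 2 * B ^ 2)) * ((3 * t + 2) * (3 * (t + g) + 2)) :=
        Nat.mul_le_mul_right _ hm2
      _ = N ^ 2 * ((A ^ 2 * B ^ 2) * ((3 * t + 2) * (3 * (t + g) + 2))) := by ring
      _ ≤ N ^ 2 * (4 * 4 ^ (2 * t + g)) := Nat.mul_le_mul_left _ h6
      _ ≤ N ^ 2 * (4 * (C ^ 2 * (2 * (2 * t + g) + 3))) := by gcongr
      _ = _ := by ring
  have hCpos : 0 < C := Nat.choose_pos (by omega)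
  have h8 : m ^ 2 * ((3 * t + 2) * (3 * (t + g) + 2)) ≤ 4 * N ^ 2 * (2 * (2 * t + g) + 3) :=
    Nat.le_of_mul_le_mul_right h7 (by positivity)
  have h9 : 9 * t * (4 * (2 * (2 * t + g) + 3)) ≤ 16 * ((3 * t + 2) * (3 * (t + g) + 2)) := by
    nlinarith
  have h10 : (9 * t * m ^ 2) * ((3 * t + 2) * (3 * (t + g) + 2)) ≤
      (16 * N ^ 2) * ((3 * t + 2) * (3 * (t + g) + 2)) := by
    calc (9 * t * m ^ 2) * ((3 * t + 2) * (3 * (t + g) + 2))
        = 9 * t * (m ^ 2 * ((3 * t + 2) * (3 * (t + g) + 2))) := by ring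
      _ ≤ 9 * t * (4 * N ^ 2 * (2 * (2 * t + g) + 3)) := Nat.mul_le_mul_left _ h8
      _ = N ^ 2 * (9 * t * (4 * (2 * (2 * t + g) + 3))) := by ring
      _ ≤ N ^ 2 * (16 * ((3 * t + 2) * (3 * (t + g) + 2))) := Nat.mul_le_mul_left _ h9
      _ = _ := by ring
  exact Nat.le_of_mul_le_mul_right h10 (by positivity)

end Pool.Agent.H52.ThreeStar
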