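import Mathlib
import Pool.Agent.H17.PermInt.Stars
import Pool.Agent.H52.ThreeStar.Binom

/-!
Counting the members `σ` of a star by the image `σ(X)` of a set `X` of positions.
-/

namespace Pool.Agent.H52.ThreeStar

open Finset Equiv Nat Pool.Agent.H17.PermInt

variable {n : ℕ}

/-- an extension lemma: a partial injection extends to a permutation -/
theorem extend_perm (s : Finset (Fin n)) (f : Fin n → Fin n) (hf : Set.InjOn f s) :
    ∃ h : Perm (Fin n), ∀ i ∈ s, h i = f i := by
  classical
  obtain ⟨g, hg⟩ := Finset.exists_equiv_extend_of_card_eq (α := Fin n) (β := Fin n)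
    (t := univ) (by simp) (s := s) (f := f) (subset_univ _) hf
  refine ⟨g.trans (Equiv.subtypeUnivEquiv (by simp)), fun i hi => ?_⟩
  simpa using hg i hi

/-- moving `Z` to `Z'` inside `D` -/
theorem move (D Z Z' : Finset (Fin n)) (hZ : Z ⊆ D) (hZ' : Z' ⊆ D) (hc : Z.card = Z'.card) :
    ∃ h : Perm (Fin n), (∀ v ∉ D, h v = v) ∧ Z.image h = Z' := by
  classical
  have e : {x // x ∈ Z} ≃ {x // x ∈ Z'} := Fintype.equivOfCardEq (by simp [hc])
  set f : Fin n → Fin n := fun v => if h : v ∈ Z then (e ⟨v, h⟩ : Fin n) else v with hf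
  have hfZ : ∀ v (h : v ∈ Z), f v = (e ⟨v, h⟩ : Fin n) := by
    intro v h
    simp [hf, h]
  have hfD : ∀ v ∉ D, f v = v := by
    intro v h
    have : v ∉ Z := fun h' => h (hZ h')
    simp [hf, this]
  have hinj : Set.InjOn f ((Dᶜ ∪ Z : Finset (Fin n)) : Set (Fin n)) := by
    intro a ha b hb hab
    simp only [coe_union, coe_compl, Set.mem_union, Set.mem_compl_iff, mem_coe] at ha hb
    by_cases ha' : a ∈ Z <;> by_cases hb' : b ∈ Z
    · rw [hfZ a ha', hfZ b hb'] at hab
      have := e.injective (Subtype.ext hab)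
      exact congrArg Subtype.val this
    · have hbD : b ∉ D := by tauto
      rw [hfZ a ha', hfD b hbD] at hab
      exact absurd (by rw [← hab]; exact hZ' (e ⟨a, ha'⟩).2) hbD
    · have haD : a ∉ D := by tauto
      rw [hfZ b hb', hfD a haD] at hab
      exact absurd (by rw [hab]; exact hZ' (e ⟨b, hb'⟩).2) haD
    · have haD : a ∉ D := by tauto
      have hbD : b ∉ D := by tauto
      rw [hfD a haD, hfD b hbD] at hab
      exact hab
  obtain ⟨h, hh⟩ := extend_perm _ f hinj
  refine ⟨h, ?_, ?_⟩
  · intro v hv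
    rw [hh v (by simp [hv]), hfD v hv]
  · apply eq_of_subset_of_card_le
    · intro y hy
      rw [mem_image] at hy
      obtain ⟨x, hx, rfl⟩ := hy
      rw [hh x (by simp [hx]), hfZ x hx]
      exact (e ⟨x, hx⟩).2
    · rw [card_image_of_injective _ h.injective, hc]

/-- the permutations which agree with `π` on the first `t` positions -/
def starAt (t : ℕ) (π : Perm (Fin n)) : Finset (Perm (Fin n)) :=
  univ.filter fun σ => ∀ i : Fin n, i.val < t → σ i = π i

theorem mem_starAt {t : ℕ} {π σ : Perm (Fin n)} :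
    σ ∈ starAt t π ↔ ∀ i : Fin n, i.val < t → σ i = π i := by
  simp [starAt]

theorem card_starAt {t : ℕ} (htn : t ≤ n) (π : Perm (Fin n)) :
    (starAt t π).card = (n - t)! := by
  have h1 : starAt t π = (star n t).image (π * ·) := by
    ext σ
    rw [mem_starAt, mem_image]
    constructor
    · intro h
      refine ⟨π⁻¹ * σ, ?_, by simp⟩
      rw [mem_star]
      intro i hi
      rw [Perm.mul_apply, h i hi]
      simp
    · rintro ⟨τ, hτ, rfl⟩ i hi
      rw [Perm.mul_apply, mem_star.mp hτ i hi]
  rw [h1, card_image_of_injective _ (mul_right_injective π), star_card htn]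

/-- the first `t` positions -/
def front (n t : ℕ) : Finset (Fin n) := univ.filter fun i => i.val < t

theorem mem_front {t : ℕ} {i : Fin n} : i ∈ front n t ↔ i.val < t := by simp [front]

theorem card_front {t : ℕ} (htn : t ≤ n) : (front n t).card = t := by
  rw [front, Fin.card_filter_val_lt]
  omega

theorem image_front {t : ℕ} {π σ : Perm (Fin n)} (h : σ ∈ starAt t π) :
    (front n t).image σ = (front n t).image π := by
  apply image_congr
  intro i hi
  exact mem_starAt.mp h i (mem_front.mp hi)

/-- the image of `X` avoids the image of the front -/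
theorem image_sub {t : ℕ} {π σ : Perm (Fin n)} (h : σ ∈ starAt t π) {X : Finset (Fin n)}
    (hX : Disjoint (front n t) X) : X.image σ ⊆ ((front n t).image π)ᶜ := by
  intro v hv
  rw [mem_compl, ← image_front h]
  intro hv'
  rw [mem_image] at hv hv'
  obtain ⟨a, ha, rfl⟩ := hv
  obtain ⟨b, hb, hab⟩ := hv'
  have := σ.injective hab
  subst this
  exact (disjoint_left.mp hX) hb ha

/-- members with a given image of `X` -/
def fib (t : ℕ) (π : Perm (Fin n)) (X Z : Finset (Fin n)) : Finset (Perm (Fin n)) :=
  (starAt t π).filter fun σ => X.image σ = Z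

theorem fib_card_le (t : ℕ) (π : Perm (Fin n)) (X Z Z' : Finset (Fin n))
    (hZ : Z ⊆ ((front n t).image π)ᶜ) (hZ' : Z' ⊆ ((front n t).image π)ᶜ)
    (hc : Z.card = Z'.card) : (fib t π X Z).card ≤ (fib t π X Z').card := by
  classical
  obtain ⟨h, hh, hZZ⟩ := move _ Z Z' hZ hZ' hc
  apply card_le_card_of_injOn (fun σ => h * σ)
  · intro σ hσ
    rw [mem_coe, fib, mem_filter] at hσ
    rw [mem_coe, fib, mem_filter]
    constructor
    · rw [mem_starAt]
      intro i hi
      rw [Perm.mul_apply, mem_starAt.mp hσ.1 i hi]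
      apply hh
      rw [mem_compl, not_not]
      exact mem_image_of_mem _ (mem_front.mpr hi)
    · rw [← hZZ, ← hσ.2, image_image]
      rfl
  · intro a _ b _ hab
    exact mul_left_cancel hab

theorem fib_card_eq (t : ℕ) (π : Perm (Fin n)) (X Z Z' : Finset (Fin n))
    (hZ : Z ⊆ ((front n t).image π)ᶜ) (hZ' : Z' ⊆ ((front n t).image π)ᶜ)
    (hc : Z.card = Z'.card) : (fib t π X Z).card = (fib t π X Z').card :=
  le_antisymm (fib_card_le t π X Z Z' hZ hZ' hc) (fib_card_le t π X Z' Z hZ' hZ hc.symm)

/-- number of elements of `X` mapped into `V` -/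
def cnt (V X : Finset (Fin n)) (σ : Perm (Fin n)) : ℕ := (X.filter fun i => σ i ∈ V).card

theorem cnt_eq (V X : Finset (Fin n)) (σ : Perm (Fin n)) :
    cnt V X σ = (X.image σ ∩ V).card := by
  have h1 : (X.filter fun i => σ i ∈ V).image σ = X.image σ ∩ V := by
    ext v
    simp only [mem_image, mem_filter, mem_inter]
    constructor
    · rintro ⟨a, ⟨ha, hv⟩, rfl⟩
      exact ⟨⟨a, ha, rfl⟩, hv⟩
    · rintro ⟨⟨a, ha, rfl⟩, hv⟩
      exact ⟨a, ⟨ha, hv⟩, rfl⟩
  rw [← h1, card_image_of_injective _ σ.injective, cnt]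

theorem sets_count (D V : Finset (Fin n)) (hV : V ⊆ D) (s k : ℕ) :
    ((D.powersetCard s).filter fun Z => (Z ∩ V).card = k).card ≤
      V.card.choose k * (D.card - V.card).choose (s - k) := by
  classical
  have h1 : (D.card - V.card) = (D \ V).card := by
    rw [card_sdiff_of_subset hV]
  rw [h1, ← card_powersetCard, ← card_powersetCard, ← card_product]
  apply card_le_card_of_injOn (fun Z => (Z ∩ V, Z \ V))
  · intro Z hZ
    rw [mem_coe, mem_filter, mem_powersetCard] at hZ
    obtain ⟨⟨hZD, hZs⟩, hk⟩ := hZ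
    rw [mem_coe, mem_product, mem_powersetCard, mem_powersetCard]
    refine ⟨⟨inter_subset_right, hk⟩, sdiff_subset_sdiff hZD (Subset.refl _), ?_⟩
    have := card_inter_add_card_sdiff Z V
    simp only at this ⊢
    omega
  · intro Z _ Z' _ h
    simp only [Prod.mk.injEq] at h
    rw [← sdiff_union_inter Z V, ← sdiff_union_inter Z' V, h.1, h.2]

/-- the number of members with `cnt = k` -/
theorem count_level {t : ℕ} (htn : t ≤ n) (π : Perm (Fin n)) (X V : Finset (Fin n))
    (hX : Disjoint (front n t) X) (hV : V ⊆ ((front n t).image π)ᶜ) (k : ℕ) :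
    ((starAt t π).filter fun σ => cnt V X σ = k).card * (n - t).choose X.card ≤
      (n - t)! * (V.card.choose k * (n - t - V.card).choose (X.card - k)) := by
  classical
  set D := ((front n t).image π)ᶜ with hD
  have hDc : D.card = n - t := by
    rw [hD, card_compl, Fintype.card_fin, card_image_of_injective _ π.injective, card_front htn]
  set P := D.powersetCard X.card with hP
  have himg : ∀ σ ∈ starAt t π, X.image σ ∈ P := by
    intro σ hσ
    rw [hP, mem_powersetCard]
    exact ⟨image_sub hσ hX, card_image_of_injective _ σ.injective⟩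
  -- a common size of the fibres
  obtain ⟨c, hc⟩ : ∃ c, ∀ Z ∈ P, (fib t π X Z).card = c := by
    refine ⟨(fib t π X (X.image π)).card, fun Z hZ => ?_⟩
    rw [hP, mem_powersetCard] at hZ
    apply fib_card_eq t π X Z _ hZ.1
    · exact image_sub (mem_starAt.mpr fun i _ => rfl) hX
    · rw [hZ.2, card_image_of_injective _ π.injective]
  have hall : (starAt t π).card = P.card * c := by
    rw [card_eq_sum_card_fiberwise (f := fun σ : Perm (Fin n) => X.image σ) (t := P) (by
      intro σ hσ
      exact himg σ hσ)]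
    rw [sum_congr rfl (g := fun _ => c), sum_const, smul_eq_mul]
    intro Z hZ
    exact hc Z hZ
  have hk : ((starAt t π).filter fun σ => cnt V X σ = k).card =
      (P.filter fun Z => (Z ∩ V).card = k).card * c := by
    rw [card_eq_sum_card_fiberwise (f := fun σ : Perm (Fin n) => X.image σ)
      (t := P.filter fun Z => (Z ∩ V).card = k) (by
      intro σ hσ
      rw [mem_coe, mem_filter] at hσ
      rw [mem_coe, mem_filter]
      refine ⟨himg σ hσ.1, ?_⟩
      rw [← cnt_eq]
      exact hσ.2)]
    rw [sum_congr rfl (g := fun _ => c), sum_const, smul_eq_mul]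
    intro Z hZ
    rw [mem_filter] at hZ
    rw [← hc Z hZ.1]
    congr 1
    ext σ
    simp only [fib, mem_filter]
    constructor
    · rintro ⟨⟨h1, _⟩, h3⟩
      exact ⟨h1, h3⟩
    · rintro ⟨h1, h3⟩
      refine ⟨⟨h1, ?_⟩, h3⟩
      rw [cnt_eq, h3]
      exact hZ.2
  have hcount := sets_count D V hV X.card k
  rw [hDc] at hcount
  have hPc : P.card = (n - t).choose X.card := by rw [hP, card_powersetCard, hDc]
  rw [card_starAt htn] at hall
  rw [hk, hall, hPc]
  calc (P.filter fun Z => (Z ∩ V).card = k).card * c * (n - t).choose X.card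
      ≤ (V.card.choose k * (n - t - V.card).choose (X.card - k)) * c * (n - t).choose X.card := by
        gcongr
    _ = _ := by ring

end Pool.Agent.H52.ThreeStar
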