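import Mathlib
import Pool.Agent.H52.ThreeStar.Fiber

/-!
Half stars: at least about one half of the members of a star have `cnt` below
(above) a threshold close to the mean.
-/

namespace Pool.Agent.H52.ThreeStar

open Finset Equiv Nat Pool.Agent.H17.PermInt

variable {n : ℕ}

theorem swap_le {t : ℕ} (π : Perm (Fin n)) (V X Y : Finset (Fin n))
    (hX : Disjoint (front n t) X) (hY : Disjoint (front n t) Y) (hXY : X.card = Y.card) (k : ℕ) :
    ((starAt t π).filter fun σ => cnt V Y σ ≤ k).card ≤
      ((starAt t π).filter fun σ => cnt V X σ ≤ k).card := by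
  classical
  obtain ⟨ι, hι, hιX⟩ := move (front n t)ᶜ X Y
    (fun i hi => mem_compl.mpr fun h => (disjoint_left.mp hX) h hi)
    (fun i hi => mem_compl.mpr fun h => (disjoint_left.mp hY) h hi) hXY
  apply card_le_card_of_injOn (fun σ => σ * ι)
  · intro σ hσ
    rw [mem_coe, mem_filter] at hσ
    rw [mem_coe, mem_filter]
    constructor
    · rw [mem_starAt]
      intro i hi
      rw [Perm.mul_apply, hι i (by rw [mem_compl, not_not, mem_front]; exact hi)]
      exact mem_starAt.mp hσ.1 i hi
    · have h1 : X.image (σ * ι : Perm (Fin n)) = Y.image σ := by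
        rw [← hιX, image_image]
        rfl
      rw [cnt_eq, h1, ← cnt_eq]
      exact hσ.2
  · intro a _ b _ hab
    exact mul_right_cancel hab

theorem cnt_union {V X Y : Finset (Fin n)} (hXY : Disjoint X Y) (σ : Perm (Fin n)) :
    cnt V (X ∪ Y) σ = cnt V X σ + cnt V Y σ := by
  classical
  unfold cnt
  rw [filter_union, card_union_of_disjoint]
  exact disjoint_filter_filter hXY

theorem cnt_le_card (V X : Finset (Fin n)) (σ : Perm (Fin n)) : cnt V X σ ≤ V.card := by
  rw [cnt_eq]
  exact card_le_card inter_subset_right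

theorem cnt_sum_le {V X Y : Finset (Fin n)} (hXY : Disjoint X Y) (σ : Perm (Fin n)) :
    cnt V X σ + cnt V Y σ ≤ V.card := by
  rw [← cnt_union hXY]
  exact cnt_le_card _ _ _

theorem cnt_sum_ge {t : ℕ} {π σ : Perm (Fin n)} (h : σ ∈ starAt t π) {V X Y : Finset (Fin n)}
    (hV : V ⊆ ((front n t).image π)ᶜ) (hXY : Disjoint X Y)
    (hrest : ((front n t) ∪ (X ∪ Y))ᶜ.card ≤ 1) :
    V.card ≤ cnt V X σ + cnt V Y σ + 1 := by
  classical
  rw [← cnt_union hXY]
  have h1 : V ⊆ ((X ∪ Y).filter fun i => σ i ∈ V).image σ ∪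
      (((front n t) ∪ (X ∪ Y))ᶜ).image σ := by
    intro v hv
    rw [mem_union]
    by_cases hm : σ.symm v ∈ X ∪ Y
    · left
      rw [mem_image]
      exact ⟨σ.symm v, by rw [mem_filter]; exact ⟨hm, by simpa using hv⟩, by simp⟩
    · right
      rw [mem_image]
      refine ⟨σ.symm v, ?_, by simp⟩
      rw [mem_compl, mem_union, not_or]
      refine ⟨fun hf => ?_, hm⟩
      have h2 := hV hv
      rw [mem_compl, ← image_front h] at h2
      apply h2
      rw [mem_image]
      exact ⟨σ.symm v, hf, by simp⟩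
  have h2 := card_le_card h1
  have h3 := card_union_le (((X ∪ Y).filter fun i => σ i ∈ V).image σ)
    ((((front n t) ∪ (X ∪ Y))ᶜ).image σ)
  rw [card_image_of_injective _ σ.injective, card_image_of_injective _ σ.injective] at h3
  have h4 : ((X ∪ Y).filter fun i => σ i ∈ V).card = cnt V (X ∪ Y) σ := rfl
  omega

theorem mid_le {t : ℕ} (π : Perm (Fin n)) (V X : Finset (Fin n)) (M a b : ℕ)
    (hM : ∀ k, ((starAt t π).filter fun σ => cnt V X σ = k).card ≤ M) :
    ((starAt t π).filter fun σ => a < cnt V X σ ∧ cnt V X σ < b).card ≤ (b - a - 1) * M := by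
  classical
  have h1 : ((starAt t π).filter fun σ => a < cnt V X σ ∧ cnt V X σ < b) ⊆
      (Finset.Ioo a b).biUnion fun k => (starAt t π).filter fun σ => cnt V X σ = k := by
    intro σ hσ
    rw [mem_filter] at hσ
    rw [mem_biUnion]
    exact ⟨cnt V X σ, by rw [mem_Ioo]; exact hσ.2, by rw [mem_filter]; exact ⟨hσ.1, rfl⟩⟩
  refine (card_le_card h1).trans ?_
  have h2 := card_biUnion_le_card_mul (Finset.Ioo a b)
    (fun k => (starAt t π).filter fun σ => cnt V X σ = k) M (fun k _ => hM k)
  rwa [Nat.card_Ioo] at h2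

theorem low_half {t : ℕ} (htn : t ≤ n) (π : Perm (Fin n)) (V X Y : Finset (Fin n))
    (hX : Disjoint (front n t) X) (hY : Disjoint (front n t) Y) (hc : X.card = Y.card)
    (hXY : Disjoint X Y) (M k : ℕ)
    (hM : ∀ k, ((starAt t π).filter fun σ => cnt V X σ = k).card ≤ M) :
    (n - t)! ≤ 2 * ((starAt t π).filter fun σ => cnt V X σ ≤ k).card +
      (V.card - k - k - 1) * M := by
  classical
  rw [← card_starAt htn π]
  have h1 : starAt t π ⊆ ((starAt t π).filter fun σ => cnt V X σ ≤ k) ∪
      (((starAt t π).filter fun σ => k < cnt V X σ ∧ cnt V X σ < V.card - k) ∪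
        ((starAt t π).filter fun σ => cnt V Y σ ≤ k)) := by
    intro σ hσ
    simp only [mem_union, mem_filter]
    have := cnt_sum_le (V := V) hXY σ
    by_cases h1 : cnt V X σ ≤ k
    · exact Or.inl ⟨hσ, h1⟩
    · by_cases h2 : cnt V X σ < V.card - k
      · exact Or.inr (Or.inl ⟨hσ, by omega, h2⟩)
      · exact Or.inr (Or.inr ⟨hσ, by omega⟩)
  have h2 := card_le_card h1
  have h3 := card_union_le ((starAt t π).filter fun σ => cnt V X σ ≤ k)
      (((starAt t π).filter fun σ => k < cnt V X σ ∧ cnt V X σ < V.card - k) ∪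
        ((starAt t π).filter fun σ => cnt V Y σ ≤ k))
  have h4 := card_union_le ((starAt t π).filter fun σ => k < cnt V X σ ∧ cnt V X σ < V.card - k)
        ((starAt t π).filter fun σ => cnt V Y σ ≤ k)
  have h5 := mid_le π V X M k (V.card - k) hM
  have h6 := swap_le π V X Y hX hY hc k
  omega

theorem high_half {t : ℕ} (htn : t ≤ n) (π : Perm (Fin n)) (V X Y : Finset (Fin n))
    (hV : V ⊆ ((front n t).image π)ᶜ)
    (hX : Disjoint (front n t) X) (hY : Disjoint (front n t) Y) (hc : X.card = Y.card)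
    (hXY : Disjoint X Y) (hrest : ((front n t) ∪ (X ∪ Y))ᶜ.card ≤ 1) (M h : ℕ)
    (hh : h + 1 ≤ V.card)
    (hM : ∀ k, ((starAt t π).filter fun σ => cnt V X σ = k).card ≤ M) :
    (n - t)! ≤ 2 * ((starAt t π).filter fun σ => h ≤ cnt V X σ).card +
      (2 * h - V.card) * M := by
  classical
  rw [← card_starAt htn π]
  have h1 : starAt t π ⊆ ((starAt t π).filter fun σ => h ≤ cnt V X σ) ∪
      (((starAt t π).filter fun σ => V.card - 1 - h < cnt V X σ ∧ cnt V X σ < h) ∪
        ((starAt t π).filter fun σ => cnt V X σ ≤ V.card - 1 - h)) := by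
    intro σ hσ
    simp only [mem_union, mem_filter]
    by_cases h1 : h ≤ cnt V X σ
    · exact Or.inl ⟨hσ, h1⟩
    · by_cases h2 : V.card - 1 - h < cnt V X σ
      · exact Or.inr (Or.inl ⟨hσ, h2, by omega⟩)
      · exact Or.inr (Or.inr ⟨hσ, by omega⟩)
  have h2 := card_le_card h1
  have h3 := card_union_le ((starAt t π).filter fun σ => h ≤ cnt V X σ)
      (((starAt t π).filter fun σ => V.card - 1 - h < cnt V X σ ∧ cnt V X σ < h) ∪
        ((starAt t π).filter fun σ => cnt V X σ ≤ V.card - 1 - h))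
  have h4 := card_union_le
        ((starAt t π).filter fun σ => V.card - 1 - h < cnt V X σ ∧ cnt V X σ < h)
        ((starAt t π).filter fun σ => cnt V X σ ≤ V.card - 1 - h)
  have h5 := mid_le π V X M (V.card - 1 - h) h hM
  have h6 := swap_le π V Y X hY hX hc.symm (V.card - 1 - h)
  have h7 : ((starAt t π).filter fun σ => cnt V Y σ ≤ V.card - 1 - h).card ≤
      ((starAt t π).filter fun σ => h ≤ cnt V X σ).card := by
    apply card_le_card
    intro σ hσ
    rw [mem_filter] at hσ ⊢
    have := cnt_sum_ge hσ.1 hV hXY hrest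
    exact ⟨hσ.1, by omega⟩
  have h8 : h - (V.card - 1 - h) - 1 = 2 * h - V.card := by omega
  rw [h8] at h5
  omega

end Pool.Agent.H52.ThreeStar
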