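import Mathlib
import Pool.Agent.H52.ThreeStar.Half

/-!
Agreements between members of two different stars, and the union of three half stars.
-/

namespace Pool.Agent.H52.ThreeStar

open Finset Equiv Nat Pool.Agent.H17.PermInt

variable {n : ℕ}

/-- agreement between members of two stars with disjoint images, in terms of `cnt` -/
theorem cross {t : ℕ} {π π' σ τ : Perm (Fin n)} (hσ : σ ∈ starAt t π) (hτ : τ ∈ starAt t π')
    (hVV : Disjoint ((front n t).image π) ((front n t).image π')) (X : Finset (Fin n))
    (hX : Disjoint (front n t) X) (htn : t ≤ n) :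
    agr σ τ + cnt ((front n t).image π) X τ + 2 * t ≤
      n + cnt ((front n t).image π') X σ := by
  classical
  set V := (front n t).image π with hV
  set V' := (front n t).image π' with hV'
  have hσV : ∀ i, σ i ∈ V → i ∈ front n t := by
    intro i hi
    rw [hV, ← image_front hσ, mem_image] at hi
    obtain ⟨j, hj, hji⟩ := hi
    rwa [σ.injective hji] at hj
  have hτV : ∀ i, τ i ∈ V' → i ∈ front n t := by
    intro i hi
    rw [hV', ← image_front hτ, mem_image] at hi
    obtain ⟨j, hj, hji⟩ := hi
    rwa [τ.injective hji] at hj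
  have hσF : ∀ i ∈ front n t, σ i ∈ V := by
    intro i hi
    rw [hV, ← image_front hσ]
    exact mem_image_of_mem _ hi
  have hτF : ∀ i ∈ front n t, τ i ∈ V' := by
    intro i hi
    rw [hV', ← image_front hτ]
    exact mem_image_of_mem _ hi
  set A := univ.filter fun i => σ i = τ i with hA
  set Q := X.filter fun i => τ i ∈ V with hQ
  set P := X.filter fun i => σ i ∈ V' with hP
  set U := (V ∪ V')ᶜ with hU
  have hAU : ∀ i ∈ A, σ i ∈ U := by
    intro i hi
    have hi' : σ i = τ i := (mem_filter.mp hi).2
    rw [hU, mem_compl, mem_union]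
    rintro (h | h)
    · have h1 := hτF i (hσV i h)
      rw [← hi'] at h1
      exact (disjoint_left.mp hVV) h h1
    · rw [hi'] at h
      have h1 := hσF i (hτV i h)
      rw [hi'] at h1
      exact (disjoint_left.mp hVV) h1 h
  have hQU : ∀ i ∈ Q \ P, σ i ∈ U := by
    intro i hi
    rw [mem_sdiff, hQ, hP, mem_filter, mem_filter] at hi
    obtain ⟨⟨hiX, _⟩, h2⟩ := hi
    rw [hU, mem_compl, mem_union]
    rintro (h | h)
    · exact (disjoint_left.mp hX) (hσV i h) hiX
    · exact h2 ⟨hiX, h⟩
  have hdis : Disjoint A (Q \ P) := by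
    rw [disjoint_left]
    intro i hi hi'
    have h1 := hAU i hi
    have h2 : σ i = τ i := (mem_filter.mp hi).2
    rw [mem_sdiff, hQ, mem_filter] at hi'
    rw [h2, hU, mem_compl, mem_union, not_or] at h1
    exact h1.1 hi'.1.2
  have h1 : (A ∪ (Q \ P)).image σ ⊆ U := by
    intro v hv
    rw [mem_image] at hv
    obtain ⟨i, hi, rfl⟩ := hv
    rw [mem_union] at hi
    rcases hi with hi | hi
    · exact hAU i hi
    · exact hQU i hi
  have h2 := card_le_card h1
  rw [card_image_of_injective _ σ.injective, card_union_of_disjoint hdis] at h2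
  have h3 : U.card = n - 2 * t := by
    rw [hU, card_compl, Fintype.card_fin, card_union_of_disjoint hVV, hV, hV',
      card_image_of_injective _ π.injective, card_image_of_injective _ π'.injective,
      card_front htn]
    omega
  have h4 : 2 * t ≤ n := by
    have h5 := card_le_univ (V ∪ V')
    rw [Fintype.card_fin, card_union_of_disjoint hVV, hV, hV',
      card_image_of_injective _ π.injective, card_image_of_injective _ π'.injective,
      card_front htn] at h5
    omega
  have h5 : Q.card ≤ (Q \ P).card + P.card := by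
    have := card_inter_add_card_sdiff Q P
    have := card_le_card (inter_subset_right (s₁ := Q) (s₂ := P))
    omega
  have h6 : agr σ τ = A.card := rfl
  have h7 : cnt V X τ = Q.card := rfl
  have h8 : cnt V' X σ = P.card := rfl
  omega

/-- a member of star `1`: the values of `X` are in the two other images, up to `g` of them -/
theorem two_sum {t g : ℕ} {π σ : Perm (Fin n)} (hσ : σ ∈ starAt t π) (V V' X : Finset (Fin n))
    (hVV : Disjoint V V') (hX : Disjoint (front n t) X)
    (hrest : ((front n t).image π ∪ (V ∪ V'))ᶜ.card ≤ g) :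
    cnt V X σ + cnt V' X σ ≤ X.card ∧ X.card ≤ cnt V X σ + cnt V' X σ + g := by
  classical
  have h0 : Disjoint (X.filter fun i => σ i ∈ V) (X.filter fun i => σ i ∈ V') := by
    rw [disjoint_filter]
    intro i _ h1 h2
    exact (disjoint_left.mp hVV) h1 h2
  have hsum : cnt V X σ + cnt V' X σ =
      ((X.filter fun i => σ i ∈ V) ∪ (X.filter fun i => σ i ∈ V')).card := by
    rw [card_union_of_disjoint h0]
    rfl
  rw [hsum]
  constructor
  · apply card_le_card
    exact union_subset (filter_subset _ _) (filter_subset _ _)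
  · set S := (X.filter fun i => σ i ∈ V) ∪ (X.filter fun i => σ i ∈ V') with hS
    have h1 : (X \ S).image σ ⊆ ((front n t).image π ∪ (V ∪ V'))ᶜ := by
      intro v hv
      rw [mem_image] at hv
      obtain ⟨i, hi, rfl⟩ := hv
      rw [mem_sdiff, hS, mem_union, mem_filter, mem_filter] at hi
      have h2 := image_sub hσ hX (mem_image_of_mem σ hi.1)
      rw [mem_compl] at h2
      rw [mem_compl, mem_union, mem_union]
      tauto
    have h2 := card_le_card h1
    rw [card_image_of_injective _ σ.injective] at h2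
    have h3 := card_inter_add_card_sdiff X S
    have h4 := card_le_card (inter_subset_right (s₁ := X) (s₂ := S))
    omega

/-- inside one star agreements are at least `t` -/
theorem inside {t : ℕ} (htn : t ≤ n) {π σ τ : Perm (Fin n)} (hσ : σ ∈ starAt t π)
    (hτ : τ ∈ starAt t π) : t ≤ agr σ τ := by
  rw [← card_front htn]
  apply card_le_card
  intro i hi
  rw [mem_filter]
  refine ⟨mem_univ _, ?_⟩
  rw [mem_starAt.mp hσ i (mem_front.mp hi), mem_starAt.mp hτ i (mem_front.mp hi)]

/-- a union of three pairwise compatible families -/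
theorem union_three {t : ℕ} (ht : 1 ≤ t) (htn : t ≤ n) (A₁ A₂ A₃ : Finset (Perm (Fin n)))
    (h₁ : IsIntersecting t A₁) (h₂ : IsIntersecting t A₂) (h₃ : IsIntersecting t A₃)
    (h₁₂ : ∀ σ ∈ A₁, ∀ τ ∈ A₂, agr σ τ + 2 ≤ t) (h₁₃ : ∀ σ ∈ A₁, ∀ τ ∈ A₃, agr σ τ + 2 ≤ t)
    (h₂₃ : ∀ σ ∈ A₂, ∀ τ ∈ A₃, agr σ τ + 2 ≤ t) :
    ∃ G : Finset (Perm (Fin n)), IsAvoiding t G ∧ G.card = A₁.card + A₂.card + A₃.card := by
  classical
  refine ⟨A₁ ∪ (A₂ ∪ A₃), ?_, ?_⟩
  · intro σ hσ τ hτ _ h
    rw [mem_union, mem_union] at hσ hτ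
    rcases hσ with hσ | hσ | hσ <;> rcases hτ with hτ | hτ | hτ
    · have := h₁ σ hσ τ hτ
      omega
    · have := h₁₂ σ hσ τ hτ
      omega
    · have := h₁₃ σ hσ τ hτ
      omega
    · have := h₁₂ τ hτ σ hσ
      rw [agr_comm] at this
      omega
    · have := h₂ σ hσ τ hτ
      omega
    · have := h₂₃ σ hσ τ hτ
      omega
    · have := h₁₃ τ hτ σ hσ
      rw [agr_comm] at this
      omega
    · have := h₂₃ τ hτ σ hσ
      rw [agr_comm] at this
      omega
    · have := h₃ σ hσ τ hτ
      omega
  · have hd : ∀ A B : Finset (Perm (Fin n)), (∀ σ ∈ A, ∀ τ ∈ B, agr σ τ + 2 ≤ t) →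
        Disjoint A B := by
      intro A B h
      rw [disjoint_left]
      intro σ hσ hσ'
      have := h σ hσ σ hσ'
      rw [agr_self] at this
      omega
    rw [card_union_of_disjoint, card_union_of_disjoint (hd _ _ h₂₃), Nat.add_assoc]
    rw [disjoint_union_right]
    exact ⟨hd _ _ h₁₂, hd _ _ h₁₃⟩

end Pool.Agent.H52.ThreeStar
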