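import Mathlib
import Pool.Agent.H52.ThreeStar.Cross

/-!
Three half stars: a `(t-1)`-intersection-free family in `S_{3t+g}` with about
`(3/2) (n-t)!` members.
-/

namespace Pool.Agent.H52.ThreeStar

open Finset Equiv Nat Pool.Agent.H17.PermInt

variable {n : ℕ}

theorem exists_shift (t j : ℕ) (h : (j + 1) * t ≤ n) :
    ∃ π : Perm (Fin n), ∀ i : Fin n, i.val < t → (π i).val = i.val + j * t := by
  set f : Fin n → Fin n := fun i => if h : i.val + j * t < n then ⟨i.val + j * t, h⟩ else i with hf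
  have h1 : (j + 1) * t = j * t + t := by ring
  have hfi : ∀ i : Fin n, i.val < t → (f i).val = i.val + j * t := by
    intro i hi
    have h2 : i.val + j * t < n := by omega
    simp [hf, h2]
  obtain ⟨π, hπ⟩ := extend_perm (front n t) f (by
    intro a ha b hb hab
    rw [mem_coe, mem_front] at ha hb
    apply Fin.ext
    have := congrArg Fin.val hab
    rw [hfi a ha, hfi b hb] at this
    omega)
  refine ⟨π, fun i hi => ?_⟩
  rw [hπ i (mem_front.mpr hi), hfi i hi]

theorem mem_image_shift {t j : ℕ} {π : Perm (Fin n)}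
    (h : ∀ i : Fin n, i.val < t → (π i).val = i.val + j * t) {v : Fin n}
    (hv : v ∈ (front n t).image π) : j * t ≤ v.val ∧ v.val < j * t + t := by
  rw [mem_image] at hv
  obtain ⟨i, hi, rfl⟩ := hv
  rw [mem_front] at hi
  rw [h i hi]
  omega

theorem level_bound {t g : ℕ} (ht : 1 ≤ t) (hn : n = 3 * t + g) (π : Perm (Fin n))
    (V X : Finset (Fin n)) (hX : Disjoint (front n t) X) (hV : V ⊆ ((front n t).image π)ᶜ)
    (hVc : V.card = t) (hXc : X.card = (2 * t + g) / 2) (k : ℕ) :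
    ((starAt t π).filter fun σ => cnt V X σ = k).card ≤
      ⌊4 * ((n - t)! : ℝ) / (3 * Real.sqrt t)⌋₊ := by
  have h1 := count_level (by omega : t ≤ n) π X V hX hV k
  have h2 : n - t = 2 * t + g := by omega
  rw [hVc, h2] at h1
  have h3 : 2 * t + g - t = t + g := by omega
  rw [h3] at h1
  have h4 := num_bound t g k X.card _ hXc _ h1
  rw [h2]
  apply Nat.le_floor
  set m := ((starAt t π).filter fun σ => cnt V X σ = k).card
  have ht' : (0 : ℝ) < t := by exact_mod_cast ht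
  have hs : 0 < Real.sqrt t := Real.sqrt_pos.mpr ht'
  rw [le_div_iff₀ (by positivity)]
  have h5 : ((m : ℝ) * (3 * Real.sqrt t)) ^ 2 ≤ (4 * ((2 * t + g)! : ℝ)) ^ 2 := by
    have h6 : (9 * t * m ^ 2 : ℝ) ≤ 16 * ((2 * t + g)! : ℝ) ^ 2 := by exact_mod_cast h4
    have h7 := Real.sq_sqrt ht'.le
    calc ((m : ℝ) * (3 * Real.sqrt t)) ^ 2 = 9 * (Real.sqrt t ^ 2) * (m : ℝ) ^ 2 := by ring
      _ = 9 * (t : ℝ) * (m : ℝ) ^ 2 := by rw [h7]
      _ ≤ 16 * ((2 * t + g)! : ℝ) ^ 2 := h6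
      _ = _ := by ring
  exact le_of_sq_le_sq h5 (by positivity)

theorem three_star_big {t g : ℕ} (ht : 64 * (g + 1) ≤ t) (hn : n = 3 * t + g) :
    ∃ G : Finset (Perm (Fin n)), IsAvoiding t G ∧
      ((3 / 2 : ℝ) - 4 * (g + 1) / Real.sqrt t) * ((n - t)! : ℝ) ≤ G.card := by
  classical
  have htn : t ≤ n := by omega
  obtain ⟨π₁, hπ₁⟩ := exists_shift (n := n) t 0 (by omega)
  obtain ⟨π₂, hπ₂⟩ := exists_shift (n := n) t 1 (by omega)
  obtain ⟨π₃, hπ₃⟩ := exists_shift (n := n) t 2 (by omega)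
  set V₁ := (front n t).image π₁ with hV₁
  set V₂ := (front n t).image π₂ with hV₂
  set V₃ := (front n t).image π₃ with hV₃
  have c₁ : V₁.card = t := by rw [hV₁, card_image_of_injective _ π₁.injective, card_front htn]
  have c₂ : V₂.card = t := by rw [hV₂, card_image_of_injective _ π₂.injective, card_front htn]
  have c₃ : V₃.card = t := by rw [hV₃, card_image_of_injective _ π₃.injective, card_front htn]
  have d₁₂ : Disjoint V₁ V₂ := by
    rw [disjoint_left]
    intro v h h'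
    have := mem_image_shift hπ₁ h
    have := mem_image_shift hπ₂ h'
    omega
  have d₁₃ : Disjoint V₁ V₃ := by
    rw [disjoint_left]
    intro v h h'
    have := mem_image_shift hπ₁ h
    have := mem_image_shift hπ₃ h'
    omega
  have d₂₃ : Disjoint V₂ V₃ := by
    rw [disjoint_left]
    intro v h h'
    have := mem_image_shift hπ₂ h
    have := mem_image_shift hπ₃ h'
    omega
  have sub : ∀ {A B : Finset (Fin n)}, Disjoint A B → B ⊆ Aᶜ := by
    intro A B h v hv
    rw [mem_compl]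
    exact fun h' => (disjoint_left.mp h) h' hv
  have hunion : (V₁ ∪ (V₂ ∪ V₃)).card = 3 * t := by
    rw [card_union_of_disjoint, card_union_of_disjoint d₂₃, c₁, c₂, c₃]
    · omega
    · rw [disjoint_union_right]
      exact ⟨d₁₂, d₁₃⟩
  have r₁ : (V₁ ∪ (V₂ ∪ V₃))ᶜ.card ≤ g := by
    rw [card_compl, Fintype.card_fin, hunion]
    omega
  have r₂ : (V₂ ∪ (V₁ ∪ V₃))ᶜ.card ≤ g := by
    have : V₂ ∪ (V₁ ∪ V₃) = V₁ ∪ (V₂ ∪ V₃) := by
      rw [← Finset.union_assoc, ← Finset.union_assoc, Finset.union_comm V₂ V₁]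
    rw [this]
    exact r₁
  have r₃ : (V₃ ∪ (V₁ ∪ V₂))ᶜ.card ≤ g := by
    have : V₃ ∪ (V₁ ∪ V₂) = V₁ ∪ (V₂ ∪ V₃) := by
      rw [Finset.union_comm, Finset.union_assoc]
    rw [this]
    exact r₁
  set s := (2 * t + g) / 2 with hs
  set X := front n (t + s) \ front n t with hX
  set Y := front n (t + 2 * s) \ front n (t + s) with hY
  have fsub : ∀ {a b : ℕ}, a ≤ b → front n a ⊆ front n b := by
    intro a b hab i hi
    rw [mem_front] at hi ⊢
    omega
  have hXd : Disjoint (front n t) X := disjoint_sdiff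
  have hYd : Disjoint (front n t) Y := by
    rw [disjoint_left]
    intro i hi hi'
    rw [hY, mem_sdiff, mem_front, mem_front] at hi'
    rw [mem_front] at hi
    omega
  have hXY : Disjoint X Y := by
    rw [disjoint_left]
    intro i hi hi'
    rw [hY, mem_sdiff, mem_front, mem_front] at hi'
    rw [hX, mem_sdiff, mem_front, mem_front] at hi
    omega
  have hXc : X.card = s := by
    rw [hX, card_sdiff_of_subset (fsub (by omega)), card_front (by omega), card_front htn]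
    omega
  have hYc : Y.card = s := by
    rw [hY, card_sdiff_of_subset (fsub (by omega)), card_front (by omega), card_front (by omega)]
    omega
  have hrest : ((front n t) ∪ (X ∪ Y))ᶜ.card ≤ 1 := by
    have h1 : front n (t + 2 * s) ⊆ (front n t) ∪ (X ∪ Y) := by
      intro i hi
      rw [mem_union, mem_union, hX, hY, mem_sdiff, mem_sdiff]
      simp only [mem_front] at hi ⊢
      omega
    have h2 := card_le_card h1
    rw [card_front (by omega)] at h2
    rw [card_compl, Fintype.card_fin]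
    omega
  set M := ⌊4 * ((n - t)! : ℝ) / (3 * Real.sqrt t)⌋₊ with hM
  set lo := (s - g - 2) / 2 with hlo
  set A₁ := (starAt t π₁).filter fun σ => cnt V₂ X σ ≤ lo with hA₁
  set A₂ := (starAt t π₂).filter fun σ => s - lo ≤ cnt V₁ X σ with hA₂
  set A₃ := (starAt t π₃).filter fun σ => cnt V₁ X σ ≤ s - lo - 2 * g - 2 with hA₃
  have b₁ := low_half htn π₁ V₂ X Y hXd hYd (by rw [hXc, hYc]) hXY M lo
    (fun k => level_bound (by omega) hn π₁ V₂ X hXd (sub d₁₂) c₂ hXc k)
  have b₂ := high_half htn π₂ V₁ X Y (sub d₁₂.symm) hXd hYd (by rw [hXc, hYc]) hXY hrest M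
    (s - lo) (by rw [c₁]; omega)
    (fun k => level_bound (by omega) hn π₂ V₁ X hXd (sub d₁₂.symm) c₁ hXc k)
  have b₃ := low_half htn π₃ V₁ X Y hXd hYd (by rw [hXc, hYc]) hXY M (s - lo - 2 * g - 2)
    (fun k => level_bound (by omega) hn π₃ V₁ X hXd (sub d₁₃.symm) c₁ hXc k)
  rw [← hA₁, c₂] at b₁
  rw [← hA₂, c₁] at b₂
  rw [← hA₃, c₁] at b₃
  obtain ⟨G, hG, hGc⟩ := union_three (t := t) (by omega) htn A₁ A₂ A₃
    (fun σ hσ τ hτ => inside htn (mem_filter.mp hσ).1 (mem_filter.mp hτ).1)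
    (fun σ hσ τ hτ => inside htn (mem_filter.mp hσ).1 (mem_filter.mp hτ).1)
    (fun σ hσ τ hτ => inside htn (mem_filter.mp hσ).1 (mem_filter.mp hτ).1)
    (fun σ hσ τ hτ => by
      obtain ⟨hσ, hσc⟩ := mem_filter.mp hσ
      obtain ⟨hτ, hτc⟩ := mem_filter.mp hτ
      have h1 := cross hσ hτ d₁₂ X hXd htn
      rw [← hV₁, ← hV₂] at h1
      omega)
    (fun σ hσ ρ hρ => by
      obtain ⟨hσ, hσc⟩ := mem_filter.mp hσ
      obtain ⟨hρ, hρc⟩ := mem_filter.mp hρ
      have h1 := cross hρ hσ d₁₃.symm X hXd htn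
      rw [← hV₁, ← hV₃, agr_comm] at h1
      have h2 := (two_sum hσ V₂ V₃ X d₂₃ hXd r₁).2
      rw [hXc] at h2
      omega)
    (fun τ hτ ρ hρ => by
      obtain ⟨hτ, hτc⟩ := mem_filter.mp hτ
      obtain ⟨hρ, hρc⟩ := mem_filter.mp hρ
      have h1 := cross hτ hρ d₂₃ X hXd htn
      rw [← hV₂, ← hV₃] at h1
      have h2 := (two_sum hτ V₁ V₃ X d₁₃ hXd r₂).1
      have h3 := (two_sum hρ V₁ V₂ X d₁₂ hXd r₃).2
      rw [hXc] at h2 h3
      omega)
  refine ⟨G, hG, ?_⟩
  have ht' : (0 : ℝ) < t := by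
    have : 0 < t := by omega
    exact_mod_cast this
  have hsq : 0 < Real.sqrt t := Real.sqrt_pos.mpr ht'
  have hMr : (M : ℝ) ≤ 4 * ((n - t)! : ℝ) / (3 * Real.sqrt t) :=
    Nat.floor_le (by positivity)
  have htot : 2 * ((t - lo - lo - 1) + (2 * (s - lo) - t) +
      (t - (s - lo - 2 * g - 2) - (s - lo - 2 * g - 2) - 1)) ≤ 9 * g + 11 := by
    omega
  have hsum : 6 * (n - t)! ≤ 4 * G.card + (9 * g + 11) * M := by
    have h1 := Nat.mul_le_mul_right M htot
    rw [hGc]
    nlinarith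
  have hsum' : (6 * ((n - t)! : ℝ)) ≤ 4 * G.card + (9 * g + 11) * M := by exact_mod_cast hsum
  have hF : (0 : ℝ) < ((n - t)! : ℝ) := by exact_mod_cast Nat.factorial_pos _
  have h2 : (9 * (g : ℝ) + 11) * M ≤ 16 * (g + 1) * ((n - t)! : ℝ) / Real.sqrt t := by
    calc (9 * (g : ℝ) + 11) * M ≤ (9 * (g : ℝ) + 11) * (4 * ((n - t)! : ℝ) / (3 * Real.sqrt t)) := by
          gcongr
      _ = ((9 * (g : ℝ) + 11) * 4 / 3) * ((n - t)! : ℝ) / Real.sqrt t := by
          field_simp
      _ ≤ _ := by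
          gcongr
          have : (0 : ℝ) ≤ g := Nat.cast_nonneg _
          linarith
  have h3 : ((3 / 2 : ℝ) - 4 * (g + 1) / Real.sqrt t) * ((n - t)! : ℝ) =
      (3 / 2) * ((n - t)! : ℝ) - (16 * (g + 1) * ((n - t)! : ℝ) / Real.sqrt t) / 4 := by
    ring
  rw [h3]
  linarith

/-- For `n = 3t + g` -/
theorem three_star {t g : ℕ} (ht : 1 ≤ t) (hn : n = 3 * t + g) :
    ∃ G : Finset (Perm (Fin n)), IsAvoiding t G ∧
      ((3 / 2 : ℝ) - 4 * (g + 1) / Real.sqrt t) * ((n - t)! : ℝ) ≤ G.card := by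
  by_cases hbig : 64 * (g + 1) ≤ t
  · exact three_star_big hbig hn
  · refine ⟨star n t, (star_intersecting (by omega)).avoiding ht, ?_⟩
    rw [star_card (by omega)]
    have ht' : (0 : ℝ) < t := by exact_mod_cast ht
    have hsq : 0 < Real.sqrt t := Real.sqrt_pos.mpr ht'
    have h1 : Real.sqrt t ≤ 8 * (g + 1) := by
      rw [Real.sqrt_le_left (by positivity)]
      have h2 : (t : ℝ) ≤ 64 * (g + 1) := by
        have : t ≤ 64 * (g + 1) := by omega
        exact_mod_cast this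
      nlinarith [sq_nonneg (g : ℝ), (Nat.cast_nonneg g : (0 : ℝ) ≤ g)]
    have h2 : (3 / 2 : ℝ) - 4 * (g + 1) / Real.sqrt t ≤ 1 := by
      have : 1 / 2 ≤ 4 * ((g : ℝ) + 1) / Real.sqrt t := by
        rw [le_div_iff₀ hsq]
        linarith
      linarith
    have hF : (0 : ℝ) < ((n - t)! : ℝ) := by exact_mod_cast Nat.factorial_pos _
    nlinarith

/-- more than a star -/
theorem three_star_more {t g : ℕ} (ht : 64 * (g + 1) ^ 2 < t) (hn : n = 3 * t + g) :
    ∃ G : Finset (Perm (Fin n)), IsAvoiding t G ∧ (n - t)! < G.card := by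
  obtain ⟨G, hG, hGc⟩ := three_star (n := n) (g := g) (t := t) (by omega) hn
  refine ⟨G, hG, ?_⟩
  have ht' : (64 * ((g : ℝ) + 1) ^ 2) < t := by exact_mod_cast ht
  have h1 : 8 * ((g : ℝ) + 1) < Real.sqrt t := by
    rw [Real.lt_sqrt (by positivity)]
    nlinarith
  have hsq : 0 < Real.sqrt t := lt_trans (by positivity) h1
  have h2 : 4 * ((g : ℝ) + 1) / Real.sqrt t < 1 / 2 := by
    rw [div_lt_iff₀ hsq]
    linarith
  have hF : (0 : ℝ) < ((n - t)! : ℝ) := by exact_mod_cast Nat.factorial_pos _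
  have h3 : ((n - t)! : ℝ) < G.card := by nlinarith
  exact_mod_cast h3

/-- consequence for coincidence -/
theorem not_coincide_of_more {t : ℕ} (htn : t ≤ n) (G : Finset (Perm (Fin n)))
    (hG : IsAvoiding t G) (hGc : (n - t)! < G.card)
    (hmax : ∀ F : Finset (Perm (Fin n)), IsIntersecting t F → F.card ≤ (n - t)!) :
    ¬ Coincide n t := by
  intro hc
  have hstar : IsLargest (IsIntersecting t) (star n t) :=
    ⟨star_intersecting htn, fun F hF => by rw [star_card htn]; exact hmax F hF⟩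
  have h1 := ((hc _).mpr hstar).2 G hG
  rw [star_card htn] at h1
  omega

end Pool.Agent.H52.ThreeStar
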